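import Mathlib

namespace Pool.Agent.H.MP_0815b2_gt

structure Sys (D : Fin 4 → Set (ℝ × ℝ)) (l : Fin 4 → ℝ) (L : ℝ) : Prop where
  pos : 0 < L
  ne : ∀ k, (D k).Nonempty
  unit : ∀ k, ∀ u ∈ D k, u.1 ^ 2 + u.2 ^ 2 = 1
  quad : ∀ k, ∀ u ∈ D k, u.1 < 0 → u.2 < 0 → False
  mono : ∀ k, ∀ u ∈ D k, ∀ v ∈ D (k + 1), 0 ≤ u.1 → 0 ≤ v.2 → 0 ≤ v.1 + u.2
  len : ∀ k (a b c : ℝ), (∀ u ∈ D k, c ≤ a * u.1 + b * u.2) → c * L ≤ a * l k + b * l (k + 1)

variable {D : Fin 4 → Set (ℝ × ℝ)} {l : Fin 4 → ℝ} {L : ℝ}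

theorem Sys.le (h : Sys D l L) {k : Fin 4} {u v : ℝ × ℝ} (hu : u ∈ D k) (hv : v ∈ D (k + 1))
    (hu2 : u.2 < 0) : v.2 ≤ u.1 := by
  have h1 : 0 ≤ u.1 := not_lt.1 fun h1 => h.quad k u hu h1 hu2
  by_contra h2
  push Not at h2
  have h3 := h.mono k u hu v hv h1 (by linarith)
  have := h.unit k u hu
  have := h.unit _ v hv
  nlinarith

theorem Sys.step (h : Sys D l L) {k : Fin 4} {u v : ℝ × ℝ} (hu : u ∈ D k) (hv : v ∈ D (k + 1))
    (hu2 : u.2 < 0) (hv2 : v.2 < 0) (hb : 1 < u.2 ^ 2 + v.2 ^ 2) :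
    ∃ w ∈ D (k + 1 + 1), w.2 < 0 ∧ 1 < v.2 ^ 2 + w.2 ^ 2 := by
  by_contra hn
  push Not at hn
  have h1 : 0 ≤ u.1 := not_lt.1 fun h1 => h.quad k u hu h1 hu2
  have h2 : 0 ≤ v.1 := not_lt.1 fun h1 => h.quad _ v hv h1 hv2
  have a1 := h.len (k + 1 + 1) 1 0 (-v.2) fun w hw => by
    by_cases hw2 : w.2 < 0
    · have h3 : 0 ≤ w.1 := not_lt.1 fun h1 => h.quad _ w hw h1 hw2
      have := hn w hw hw2
      have := h.unit _ w hw
      nlinarith
    · have := h.mono _ v hv w hw h2 (not_lt.1 hw2)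
      linarith
  have a2 := h.len (k + 1) 0 (-1) (-u.1) fun z hz => by
    have := h.le hu hz hu2
    linarith
  have a3 : -v.2 ≤ u.1 := le_of_mul_le_mul_right (by linarith) h.pos
  have := h.unit k u hu
  nlinarith

theorem Sys.diff (h : Sys D l L) {k : Fin 4} {u : ℝ × ℝ} (hu : u ∈ D k) (hu2 : u.2 < 0) :
    (-u.2 - u.1) * L ≤ l (k + 1) - l (k + 1 + 1) := by
  have h1 : 0 ≤ u.1 := not_lt.1 fun h1 => h.quad k u hu h1 hu2
  have := h.len (k + 1) 1 (-1) (-u.2 - u.1) fun z hz => by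
    by_cases hz2 : z.2 < 0
    · have h3 : 0 ≤ z.1 := not_lt.1 fun h1 => h.quad _ z hz h1 hz2
      have e1 := h.unit _ z hz
      have e2 := h.unit k u hu
      have : 1 ≤ z.1 - z.2 := by nlinarith
      have : -u.2 ≤ 1 := by nlinarith
      linarith
    · have := h.mono _ u hu z hz h1 (not_lt.1 hz2)
      have := h.le hu hz hu2
      linarith
  linarith

theorem Sys.nobad (h : Sys D l L) {k : Fin 4} {u v : ℝ × ℝ} (hu : u ∈ D k) (hv : v ∈ D (k + 1))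
    (hu2 : u.2 < 0) (hv2 : v.2 < 0) (hb : 1 < u.2 ^ 2 + v.2 ^ 2) : False := by
  obtain ⟨w, hw, hw2, hb2⟩ := h.step hu hv hu2 hv2 hb
  obtain ⟨z, hz, hz2, hb3⟩ := h.step hv hw hv2 hw2 hb2
  have d1 := h.diff hu hu2
  have d2 := h.diff hv hv2
  have d3 := h.diff hw hw2
  have d4 := h.diff hz hz2
  have e : k + 1 + 1 + 1 + 1 + 1 = k + 1 :=
    (by decide : ∀ k : Fin 4, k + 1 + 1 + 1 + 1 + 1 = k + 1) k
  rw [e] at d4
  have key : ∀ x y : ℝ × ℝ, x.1 ^ 2 + x.2 ^ 2 = 1 → y.2 < 0 → 1 < x.2 ^ 2 + y.2 ^ 2 →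
      x.1 < -y.2 := fun x y h1 h2 h3 => by nlinarith
  have k1 := key u v (h.unit _ _ hu) hv2 hb
  have k2 := key v u (h.unit _ _ hv) hu2 (by linarith)
  have k3 := key w z (h.unit _ _ hw) hz2 hb3
  have k4 := key z w (h.unit _ _ hz) hw2 (by linarith)
  have := h.pos
  nlinarith

theorem Sys.mirror (h : Sys D l L) : Sys (fun k => Prod.swap ⁻¹' D (-k)) (fun k => l (-k + 1)) L where
  pos := h.pos
  ne k := (h.ne _).preimage Prod.swap_surjective
  unit k u hu := by have := h.unit _ _ hu; simp only [Prod.fst_swap, Prod.snd_swap] at this; linarith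
  quad k u hu h1 h2 := h.quad _ _ hu h2 h1
  mono k u hu v hv h1 h2 := by
    have e : -k = -(k + 1) + 1 := by abel
    have := h.mono (-(k + 1)) _ hv u.swap (e ▸ hu) h2 h1
    simp only [Prod.fst_swap, Prod.snd_swap] at this
    linarith
  len k a b c hc := by
    have := h.len (-k) b a c fun u hu => by
      have := hc u.swap (by simpa using hu)
      simp only [Prod.fst_swap, Prod.snd_swap] at this
      linarith
    have e : -(k + 1) + 1 = -k := by abel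
    simp only [e]
    linarith

theorem Sys.main (h : Sys D l L) : 2 * L ≤ l 0 + l 1 + l 2 + l 3 := by
  have key : ∀ k, ∀ u ∈ D k, ∀ v ∈ D (k + 1), -u.2 ≤ v.1 := by
    intro k u hu v hv
    by_contra hn
    push Not at hn
    have e1 := h.unit _ _ hu
    have e2 := h.unit _ _ hv
    by_cases h1 : v.2 < 0
    · have h2 : 0 ≤ v.1 := not_lt.1 fun h2 => h.quad _ v hv h2 h1
      exact h.nobad hu hv (by linarith) h1 (by nlinarith)
    by_cases h2 : u.1 < 0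
    · have h3 : 0 ≤ u.2 := not_lt.1 fun h3 => h.quad _ u hu h2 h3
      refine h.mirror.nobad (k := -(k + 1)) (u := v.swap) (v := u.swap) (by simpa using hv)
        (by simpa using hu) (by simp only [Prod.snd_swap]; linarith) h2 ?_
      simp only [Prod.snd_swap]
      nlinarith
    · have := h.mono k u hu v hv (not_lt.1 h2) (not_lt.1 h1)
      linarith
  have hg : ∀ k, ∃ g : ℝ, (∀ u ∈ D k, -u.2 ≤ g) ∧ ∀ v ∈ D (k + 1), g ≤ v.1 := by
    intro k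
    obtain ⟨g, h1, h2⟩ := exists_between_of_forall_le (s := (fun u : ℝ × ℝ => -u.2) '' D k)
      (t := Prod.fst '' D (k + 1)) ((h.ne k).image _) ((h.ne _).image _)
      (by rintro _ ⟨u, hu, rfl⟩ _ ⟨v, hv, rfl⟩; exact key k u hu v hv)
    exact ⟨g, fun u hu => h1 ⟨u, hu, rfl⟩, fun v hv => h2 ⟨v, hv, rfl⟩⟩
  choose g g1 g2 using hg
  have hk : ∀ k, (1 + g k - g (k + 1)) * L ≤
      (1 + g k) * l (k + 1) + (1 - g (k + 1)) * l (k + 1 + 1) := fun k =>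
    h.len (k + 1) _ _ _ fun u hu => by
      have a1 := g2 k u hu
      have a2 := g1 _ u hu
      have e := h.unit _ _ hu
      have b1 : u.1 ≤ 1 := by nlinarith
      have b2 : u.2 ≤ 1 := by nlinarith
      nlinarith [mul_nonneg (sub_nonneg.2 a1) (sub_nonneg.2 b1),
        mul_nonneg (sub_nonneg.2 a2) (sub_nonneg.2 b2)]
  have h0 : (1 + g 0 - g 1) * L ≤ (1 + g 0) * l 1 + (1 - g 1) * l 2 := hk 0
  have h1 : (1 + g 1 - g 2) * L ≤ (1 + g 1) * l 2 + (1 - g 2) * l 3 := hk 1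
  have h2 : (1 + g 2 - g 3) * L ≤ (1 + g 2) * l 3 + (1 - g 3) * l 0 := hk 2
  have h3 : (1 + g 3 - g 0) * L ≤ (1 + g 3) * l 0 + (1 - g 0) * l 1 := hk 3
  linarith

end Pool.Agent.H.MP_0815b2_gt
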