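import Mathlib
import Pool.Agent.H.MP_0815b2_gt.A

namespace Pool.Agent.H.MP_0815b2_gt
open Complex

def orr (p q r : ℂ) : ℝ := (q.re - p.re) * (r.im - p.im) - (q.im - p.im) * (r.re - p.re)

def OR (δ : ℝ → ℂ) : Prop := ∀ s t u, s ≤ t → t ≤ u → u ≤ s + 1 → 0 ≤ orr (δ s) (δ t) (δ u)

def Len (δ : ℝ → ℂ) (r r' L : ℝ) : Prop := ∀ (ψ : ℝ → ℝ) (c : ℝ),
  (∀ s t, r ≤ s → s ≤ t → t ≤ r' → c * ‖δ t - δ s‖ ≤ ψ t - ψ s) → c * L ≤ ψ r' - ψ r

def Ch (δ : ℝ → ℂ) (r r' : ℝ) : Set (ℝ × ℝ) := {u | ∃ s t, r ≤ s ∧ s ≤ t ∧ t ≤ r' ∧ δ t ≠ δ s ∧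
  u = (-(δ t - δ s).re / ‖δ t - δ s‖, (δ t - δ s).im / ‖δ t - δ s‖)}

structure Fr (δ : ℝ → ℂ) (r0 r1 r2 r3 : ℝ) : Prop where
  l1 : r0 < r1
  l2 : r1 < r2
  l3 : r2 < r3
  l4 : r3 < r0 + 1
  per : ∀ t, δ (t + 1) = δ t
  inj : ∀ s t, s < t → t < s + 1 → δ t ≠ δ s
  ori : OR δ
  e1 : (δ r1).im = (δ r3).im
  e2 : (δ r3).re < (δ r1).re
  e3 : (δ r2).re = (δ r0).re
  e4 : (δ r0).im < (δ r2).im

def rot (δ : ℝ → ℂ) : ℝ → ℂ := fun t => -I * δ t

theorem rot_re (δ : ℝ → ℂ) (t : ℝ) : (rot δ t).re = (δ t).im := by simp [rot]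
theorem rot_im (δ : ℝ → ℂ) (t : ℝ) : (rot δ t).im = -(δ t).re := by simp [rot]
theorem rot_norm (δ : ℝ → ℂ) (s t : ℝ) : ‖rot δ t - rot δ s‖ = ‖δ t - δ s‖ := by
  simp only [rot, ← mul_sub]; simp

variable {δ : ℝ → ℂ} {r0 r1 r2 r3 L : ℝ}

theorem Fr.rot (h : Fr δ r0 r1 r2 r3) : Fr (rot δ) r1 r2 r3 (r0 + 1) where
  l1 := h.l2
  l2 := h.l3
  l3 := h.l4
  l4 := by linarith [h.l1]
  per t := by simp only [MP_0815b2_gt.rot, h.per]
  inj s t h1 h2 e := h.inj s t h1 h2 (mul_left_cancel₀ (by simp) e)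
  ori s t u h1 h2 h3 := by
    have := h.ori s t u h1 h2 h3
    simp only [orr, rot_re, rot_im] at this ⊢
    linarith
  e1 := by simp only [rot_im, h.per, h.e3]
  e2 := by simp only [rot_re, h.per, h.e4]
  e3 := by simp only [rot_re, h.e1]
  e4 := by simp only [rot_im]; linarith [h.e2]

theorem Len.rot {r r' : ℝ} (h : Len δ r r' L) : Len (rot δ) r r' L := fun ψ c hc =>
  h ψ c fun s t h1 h2 h3 => by simpa only [rot_norm] using hc s t h1 h2 h3

theorem ch_unit {r r' : ℝ} : ∀ u ∈ Ch δ r r', u.1 ^ 2 + u.2 ^ 2 = 1 := by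
  rintro _ ⟨s, t, -, -, -, hn, rfl⟩
  have : ‖δ t - δ s‖ ≠ 0 := norm_ne_zero_iff.2 (sub_ne_zero.2 hn)
  have e := Complex.sq_norm (δ t - δ s)
  rw [normSq_apply] at e
  field_simp
  linarith

theorem Fr.ne (h : Fr δ r0 r1 r2 r3) : (Ch δ r1 r2).Nonempty :=
  ⟨_, r1, r2, le_rfl, h.l2.le, le_rfl,
    h.inj _ _ h.l2 (by linarith [h.l1, h.l3, h.l4]), rfl⟩

theorem Fr.quad (h : Fr δ r0 r1 r2 r3) : ∀ u ∈ Ch δ r1 r2, u.1 < 0 → u.2 < 0 → False := by
  rintro _ ⟨s, t, h1, h2, h3, hn, rfl⟩ a1 a2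
  have hp : 0 < ‖δ t - δ s‖ := norm_pos_iff.2 (sub_ne_zero.2 hn)
  have := h.l1; have := h.l2; have := h.l3; have := h.l4
  have b1 : 0 < (δ t).re - (δ s).re := by
    have := (div_neg_iff.1 a1).resolve_left (fun h => absurd h.2 hp.le.not_gt)
    simpa using this.1
  have b2 : (δ t).im - (δ s).im < 0 := by
    have := (div_neg_iff.1 a2).resolve_left (fun h => absurd h.2 hp.le.not_gt)
    simpa using this.1
  have o1 := h.ori r1 s r3 h1 (by linarith) (by linarith)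
  have o2 := h.ori s r2 (r0 + 1) (by linarith) (by linarith) (by linarith)
  have o3 := h.ori s t r3 h2 (by linarith) (by linarith)
  have o4 := h.ori r2 r3 (r0 + 1) (by linarith) (by linarith) (by linarith)
  have e1 := h.e1; have e2 := h.e2; have e3 := h.e3; have e4 := h.e4
  simp only [orr, h.per] at o1 o2 o3 o4
  have c1 : (δ r3).im ≤ (δ s).im := by rw [e1] at o1; nlinarith
  have c2 : (δ r0).re ≤ (δ s).re := by rw [e3] at o2; nlinarith
  have c3 : (δ r3).re ≤ (δ r0).re := by rw [e3] at o4; nlinarith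
  refine h.inj s r3 (by linarith) (by linarith) (Complex.ext ?_ ?_) <;> nlinarith

theorem unit_le {x y x' y' : ℝ} (h1 : x ^ 2 + y ^ 2 = 1) (h2 : x' ^ 2 + y' ^ 2 = 1) (a : 0 ≤ x)
    (b : 0 ≤ x') (c : 0 < x + x') (d : 0 ≤ x' * y - x * y') : y' ≤ y := by
  by_contra hn
  push Not at hn
  have : 2 * (x + x') * (x' * y - x * y') = -(y' - y) * ((x + x') ^ 2 + (y + y') ^ 2) := by
    linear_combination (y + y') * (h2 - h1)
  have h3 : 0 < (y' - y) * ((x + x') ^ 2 + (y + y') ^ 2) := by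
    have : 0 < y' - y := by linarith
    positivity
  nlinarith

theorem sq_aux {y y' : ℝ} (h1 : y ^ 2 = 1) (h2 : y' ^ 2 = 1) (h3 : y + y' < 0) : y < 0 := by
  nlinarith

theorem Fr.mono (h : Fr δ r0 r1 r2 r3) : ∀ u ∈ Ch δ r1 r2, ∀ v ∈ Ch (MP_0815b2_gt.rot δ) r2 r3,
    0 ≤ u.1 → 0 ≤ v.2 → 0 ≤ v.1 + u.2 := by
  intro u hu v hv a1 a2
  have u1 := ch_unit u hu
  have u2 := ch_unit v hv
  obtain ⟨s, t, h1, h2, h3, hn, rfl⟩ := hu
  obtain ⟨s', t', h1', h2', h3', hn', rfl⟩ := hv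
  have hp : 0 < ‖δ t - δ s‖ := norm_pos_iff.2 (sub_ne_zero.2 hn)
  have hp' : 0 < ‖δ t' - δ s'‖ := by
    rw [← rot_norm]; exact norm_pos_iff.2 (sub_ne_zero.2 hn')
  have := h.l1; have := h.l2; have := h.l3; have := h.l4
  simp only [rot_norm, sub_re, sub_im, rot_re, rot_im] at a1 a2 u1 u2 ⊢
  have o1 := h.ori t r2 (r0 + 1) h3 (by linarith) (by linarith)
  have o2 := h.ori r2 s' (r0 + 1) h1' (by linarith) (by linarith)
  have o3 := h.ori s t t' h2 (by linarith) (by linarith)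
  have o4 := h.ori s s' t' (by linarith) h2' (by linarith)
  have o5 := h.ori s t r3 h2 (by linarith) (by linarith)
  have o6 := h.ori r1 s' t' (by linarith) h2' (by linarith)
  have e1 := h.e1; have e2 := h.e2; have e3 := h.e3; have e4 := h.e4
  simp only [orr, h.per] at o1 o2 o3 o4 o5 o6
  have c1 : (δ r0).re ≤ (δ t).re := by rw [e3] at o1; nlinarith
  have c2 : (δ s').re ≤ (δ r0).re := by rw [e3] at o2; nlinarith
  generalize ‖δ t - δ s‖ = n at *
  generalize ‖δ t' - δ s'‖ = n' at *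
  obtain ⟨x, hx⟩ : ∃ x, x = -((δ t).re - (δ s).re) / n := ⟨_, rfl⟩
  obtain ⟨y, hy⟩ : ∃ y, y = ((δ t).im - (δ s).im) / n := ⟨_, rfl⟩
  obtain ⟨x', hx'⟩ : ∃ x, x = (-(δ t').re - -(δ s').re) / n' := ⟨_, rfl⟩
  obtain ⟨y', hy'⟩ : ∃ y, y = -((δ t').im - (δ s').im) / n' := ⟨_, rfl⟩
  rw [← hx] at a1 u1; rw [← hy] at u1 ⊢; rw [← hx'] at a2 u2; rw [← hy'] at u2 ⊢
  have f1 : (δ t).re = (δ s).re - n * x := by rw [hx]; field_simp; ring
  have f2 : (δ t).im = (δ s).im + n * y := by rw [hy]; field_simp; ring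
  have f3 : (δ s').re = (δ t').re + n' * x' := by rw [hx']; field_simp; ring
  have f4 : (δ s').im = (δ t').im + n' * y' := by rw [hy']; field_simp; ring
  rw [f1, f2] at o3 o5
  rw [f3, f4] at o4 o6
  have g3 : 0 ≤ -x * ((δ t').im - (δ s).im) - y * ((δ t').re - (δ s).re) :=
    le_of_mul_le_mul_left (by linarith) hp
  have g4 : 0 ≤ x' * ((δ t').im - (δ s).im) - y' * ((δ t').re - (δ s).re) :=
    le_of_mul_le_mul_left (by linarith) hp'
  have nx := mul_nonneg hp.le a1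
  have nx' := mul_nonneg hp'.le a2
  rcases (add_nonneg a1 a2).eq_or_lt with z | z
  · have z1 : x = 0 := by linarith
    have z2 : x' = 0 := by linarith
    by_contra hc
    push Not at hc
    rw [z1] at u1 o5 f1
    rw [z2] at u2 o6 f3
    have y1 : y < 0 := sq_aux (y' := y') (by linarith) (by linarith) (by linarith)
    have y2 : y' < 0 := sq_aux (y' := y) (by linarith) (by linarith) (by linarith)
    have g5 : 0 ≤ -y * ((δ r3).re - (δ s).re) := le_of_mul_le_mul_left (by linarith) hp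
    have g6 : 0 ≤ -y' * ((δ t').re - (δ r1).re) := le_of_mul_le_mul_left (by linarith) hp'
    have := nonneg_of_mul_nonneg_right g5 (by linarith)
    have := nonneg_of_mul_nonneg_right g6 (by linarith)
    linarith
  · have hv : 0 < (δ s).re - (δ t').re := by
      rcases a1.eq_or_lt with z1 | z1
      · have := mul_pos hp' (show 0 < x' by linarith)
        linarith
      · have := mul_pos hp z1
        linarith
    have : 0 ≤ x' * y - x * -y' := le_of_mul_le_mul_left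
      (by linarith [mul_nonneg a2 g3, mul_nonneg a1 g4]) hv
    have := unit_le u1 (show x' ^ 2 + (-y') ^ 2 = 1 by linarith) a1 a2 z this
    linarith

theorem Len.ch {r r' : ℝ} (h : Len δ r r' L) (a b c : ℝ)
    (hc : ∀ u ∈ Ch δ r r', c ≤ a * u.1 + b * u.2) :
    c * L ≤ a * ((δ r).re - (δ r').re) + b * ((δ r').im - (δ r).im) := by
  have := h (fun t => -a * (δ t).re + b * (δ t).im) c fun s t h1 h2 h3 => by
    by_cases hn : δ t = δ s
    · simp [hn]
    have hp : 0 < ‖δ t - δ s‖ := norm_pos_iff.2 (sub_ne_zero.2 hn)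
    have := hc _ ⟨s, t, h1, h2, h3, hn, rfl⟩
    simp only [sub_re, sub_im, ← mul_div_assoc, ← add_div] at this
    rw [le_div_iff₀ hp] at this
    linarith
  linarith

theorem Fr.main (h : Fr δ r0 r1 r2 r3) (hL : 0 < L) (h1 : Len δ r1 r2 L) (h2 : Len δ r2 r3 L)
    (h3 : Len δ r3 (r0 + 1) L) (h4 : Len δ (r0 + 1) (r1 + 1) L) :
    2 * L ≤ ((δ r1).re - (δ r3).re) + ((δ r2).im - (δ r0).im) := by
  have k1 := h.rot
  have k2 := k1.rot
  have k3 := k2.rot
  have e4 : MP_0815b2_gt.rot (MP_0815b2_gt.rot (MP_0815b2_gt.rot (MP_0815b2_gt.rot δ))) = δ := by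
    funext t; apply Complex.ext <;> simp [rot_re, rot_im]
  have sh : Ch δ r1 r2 ⊆ Ch δ (r1 + 1) (r2 + 1) := by
    rintro _ ⟨s, t, a1, a2, a3, a4, rfl⟩
    exact ⟨s + 1, t + 1, by linarith, by linarith, by linarith, by simpa [h.per] using a4,
      by simp [h.per]⟩
  have e1 := h.e1; have e3 := h.e3
  have : Sys ![Ch δ r1 r2, Ch (MP_0815b2_gt.rot δ) r2 r3,
      Ch (MP_0815b2_gt.rot (MP_0815b2_gt.rot δ)) r3 (r0 + 1),
      Ch (MP_0815b2_gt.rot (MP_0815b2_gt.rot (MP_0815b2_gt.rot δ))) (r0 + 1) (r1 + 1)]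
      ![(δ r1).re - (δ r2).re, (δ r2).im - (δ r1).im, (δ r2).re - (δ r3).re,
        (δ r1).im - (δ r0).im] L := by
    refine ⟨hL, fun k => ?_, fun k => ?_, fun k => ?_, fun k => ?_, fun k a b c hc => ?_⟩
    · fin_cases k
      exacts [h.ne, k1.ne, k2.ne, k3.ne]
    · fin_cases k <;> exact ch_unit
    · fin_cases k
      exacts [h.quad, k1.quad, k2.quad, k3.quad]
    · fin_cases k
      exacts [h.mono, k1.mono, k2.mono, fun u hu v hv => k3.mono u hu v (e4.symm ▸ sh hv)]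
    · fin_cases k
      · exact h1.ch a b c hc
      · have := h2.rot.ch a b c hc
        simp only [rot_re, rot_im] at this
        show _ ≤ a * ((δ r2).im - (δ r1).im) + b * ((δ r2).re - (δ r3).re)
        rw [e1]; linarith
      · have := h3.rot.rot.ch a b c hc
        simp only [rot_re, rot_im, h.per] at this
        show _ ≤ a * ((δ r2).re - (δ r3).re) + b * ((δ r1).im - (δ r0).im)
        rw [e1, e3]; linarith
      · have := h4.rot.rot.rot.ch a b c hc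
        simp only [rot_re, rot_im, h.per] at this
        show _ ≤ a * ((δ r1).im - (δ r0).im) + b * ((δ r1).re - (δ r2).re)
        rw [e3]; linarith
  have := this.main
  simp only [Matrix.cons_val] at this
  linarith

end Pool.Agent.H.MP_0815b2_gt
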