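import Mathlib
import Pool.Agent.H.MP_0815b2_gt.B

namespace Pool.Agent.H.MP_0815b2_gt
open Complex Set

theorem len_of_var (γ : ℝ → ℂ) (r r' L : ℝ) (hr : r ≤ r') (hL : 0 ≤ L)
    (h : eVariationOn γ (Icc r r') = ENNReal.ofReal L) : Len γ r r' L := by
  intro ψ c hc
  rcases le_or_gt c 0 with c0 | c0
  · have h1 := eVariationOn.edist_le γ (s := Icc r r') (right_mem_Icc.2 hr) (left_mem_Icc.2 hr)
    rw [h, edist_dist, ENNReal.ofReal_le_ofReal_iff hL, dist_eq_norm] at h1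
    have := hc r r' le_rfl hr le_rfl
    nlinarith
  · have hm : ∀ s t, r ≤ s → s ≤ t → t ≤ r' → 0 ≤ ψ t - ψ s := fun s t a b d =>
      le_trans (by positivity) (hc s t a b d)
    have h1 : eVariationOn γ (Icc r r') ≤ ENNReal.ofReal ((ψ r' - ψ r) / c) := by
      refine iSup_le ?_
      rintro ⟨n, u, hu, us⟩
      simp only [edist_dist]
      rw [← ENNReal.ofReal_sum_of_nonneg fun _ _ => dist_nonneg]
      refine ENNReal.ofReal_le_ofReal ?_
      rw [le_div_iff₀ c0, Finset.sum_mul]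
      calc _ ≤ ∑ i ∈ Finset.range n, (ψ (u (i + 1)) - ψ (u i)) := Finset.sum_le_sum fun i _ => by
            rw [mul_comm, dist_eq_norm]
            exact hc _ _ (us i).1 (hu (Nat.le_succ i)) (us _).2
        _ = ψ (u n) - ψ (u 0) := Finset.sum_range_sub (fun i => ψ (u i)) n
        _ ≤ _ := by
            have := hm r (u 0) le_rfl (us 0).1 (us 0).2
            have := hm (u n) r' (us n).1 (us n).2 le_rfl
            linarith
    rw [h, ENNReal.ofReal_le_ofReal_iff (div_nonneg (hm r r' le_rfl hr le_rfl) c0.le),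
      le_div_iff₀ c0] at h1
    linarith

theorem inj_per {γ : ℝ → ℂ} (hp : Function.Periodic γ 1) (hi : InjOn γ (Ico 0 1)) (s t : ℝ)
    (h1 : s < t) (h2 : t < s + 1) : γ t ≠ γ s := by
  intro e
  have f : ∀ x, γ (Int.fract x) = γ x := fun x => by
    have := hp.sub_int_mul_eq (x := x) ⌊x⌋
    rwa [mul_one] at this
  have := hi ⟨Int.fract_nonneg t, Int.fract_lt_one t⟩ ⟨Int.fract_nonneg s, Int.fract_lt_one s⟩
    (by rw [f, f, e])
  obtain ⟨z, hz⟩ := Int.fract_eq_fract.1 this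
  have a1 : (0 : ℝ) < z := by linarith
  have a2 : (z : ℝ) < 1 := by linarith
  have : 0 < z := by exact_mod_cast a1
  have : z < 1 := by exact_mod_cast a2
  omega

theorem circ {p q r : ℂ} (hp : ‖p‖ = 1) (hq : ‖q‖ = 1) (hr : ‖r‖ = 1) (h1 : q ≠ p) (h2 : r ≠ p)
    (h3 : r ≠ q) : orr p q r ≠ 0 := by
  intro h
  have n : ∀ z : ℂ, ‖z‖ = 1 → z.re * z.re + z.im * z.im = 1 := fun z hz => by
    rw [← normSq_apply, ← Complex.sq_norm, hz]; norm_num
  have m : ∀ z w : ℂ, z ≠ w → (z.re - w.re) ^ 2 + (z.im - w.im) ^ 2 ≠ 0 := fun z w hzw e =>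
    hzw (Complex.ext (by nlinarith) (by nlinarith))
  have a1 := n p hp; have a2 := n q hq; have a3 := n r hr
  have key : ((q.re - p.re) ^ 2 + (q.im - p.im) ^ 2) * ((r.re - p.re) ^ 2 + (r.im - p.im) ^ 2) *
      ((r.re - q.re) ^ 2 + (r.im - q.im) ^ 2) = 4 * orr p q r ^ 2 := by
    simp only [orr]
    grind
  rw [h] at key
  exact mul_ne_zero (mul_ne_zero (m _ _ h1) (m _ _ h2)) (m _ _ h3) (by rw [key]; ring)

def dt (p q : ℂ) : ℝ := p.re * q.im - p.im * q.re

theorem two_neg {p q r : ℂ} (hp : ‖p‖ = 1) (hq : ‖q‖ = 1) (hr : ‖r‖ = 1)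
    (h : 0 < dt q r + dt r p + dt p q) (h1 : dt q r < 0) (h2 : dt r p < 0) : False := by
  have e : ((dt p q : ℝ) : ℂ) * r = (-dt q r : ℝ) * p + (-dt r p : ℝ) * q := by
    apply Complex.ext <;> simp [dt] <;> ring
  have := norm_add_le (((-dt q r : ℝ) : ℂ) * p) ((-dt r p : ℝ) * q)
  rw [← e] at this
  simp only [norm_mul, hp, hq, hr, mul_one, norm_real, Real.norm_eq_abs] at this
  rw [abs_of_pos (by linarith), abs_of_pos (by linarith), abs_of_pos (by linarith)] at this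
  linarith

theorem one_neg {F : Set ℂ} (hc : Convex ℝ F) {O : ℂ} (hO : O ∈ interior F) {p q r : ℂ}
    {a b c : ℝ} (ha : 0 < a) (hb : 0 < b) (hc' : 0 < c) (h1 : O + a * p ∈ F)
    (h2 : O + b * q ∉ interior F) (h3 : O + c * r ∈ F) (n1 : 0 ≤ dt q r) (n3 : 0 ≤ dt p q)
    (h : b * c * dt q r + c * a * dt r p + a * b * dt p q < 0) : False := by
  have t1 := mul_nonneg (mul_pos hb hc').le n1
  have t3 := mul_nonneg (mul_pos ha hb).le n3
  have hD : 0 < -(c * a * dt r p) := by linarith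
  set D := -(c * a * dt r p) with hDd
  set x := b * c * dt q r / D
  set z := a * b * dt p q / D
  have hx : 0 ≤ x := div_nonneg t1 hD.le
  have hz : 0 ≤ z := div_nonneg t3 hD.le
  have hs : x + z < 1 := by rw [← add_div, div_lt_one hD]; linarith
  have e : O + b * q = (1 - (x + z)) • O + x • (O + a * p) + z • (O + c * r) := by
    have e1 : x * D = b * c * dt q r := div_mul_cancel₀ _ hD.ne'
    have e2 : z * D = a * b * dt p q := div_mul_cancel₀ _ hD.ne'
    apply Complex.ext <;> simp only [add_re, add_im, smul_re, smul_im, re_ofReal_mul,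
      im_ofReal_mul, smul_eq_mul] <;> apply mul_right_cancel₀ hD.ne' <;>
      simp only [dt] at e1 e2 hDd
    · linear_combination (-a * p.re) * e1 - c * r.re * e2 + b * q.re * hDd
    · linear_combination (-a * p.im) * e1 - c * r.im * e2 + b * q.im * hDd
  apply h2
  rw [e]
  rcases (add_nonneg hx hz).eq_or_lt with z0 | z0
  · have x0 : x = 0 := by linarith
    have z0 : z = 0 := by linarith
    rw [x0, z0]
    simpa using hO
  · have m := hc h1 h3 (div_nonneg hx z0.le) (div_nonneg hz z0.le)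
      (by rw [← add_div, div_self z0.ne'])
    have := hc.combo_interior_self_mem_interior hO m (a := 1 - (x + z)) (b := x + z)
      (by linarith) z0.le (by ring)
    rwa [smul_add, smul_smul, smul_smul, mul_div_cancel₀ _ z0.ne', mul_div_cancel₀ _ z0.ne',
      ← add_assoc] at this

theorem tri {F : Set ℂ} (hc : Convex ℝ F) {O : ℂ} (hO : O ∈ interior F) {p q r : ℂ}
    (hp : ‖p‖ = 1) (hq : ‖q‖ = 1) (hr : ‖r‖ = 1)
    {a b c : ℝ} (ha : 0 < a) (hb : 0 < b) (hc' : 0 < c) (h1 : O + a * p ∈ F \ interior F)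
    (h2 : O + b * q ∈ F \ interior F) (h3 : O + c * r ∈ F \ interior F) (h : 0 < orr p q r) :
    0 ≤ orr (O + a * p) (O + b * q) (O + c * r) := by
  have e1 : orr p q r = dt q r + dt r p + dt p q := by simp only [orr, dt]; ring
  have e2 : orr (O + a * p) (O + b * q) (O + c * r) =
      b * c * dt q r + c * a * dt r p + a * b * dt p q := by simp [orr, dt]; ring
  rw [e1] at h
  rw [e2]
  by_contra hn
  push Not at hn
  by_cases n1 : dt q r < 0
  · by_cases n2 : dt r p < 0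
    · exact two_neg hp hq hr h n1 n2
    by_cases n3 : dt p q < 0
    · exact two_neg hr hp hq (by linarith) n3 n1
    exact one_neg hc hO hc' ha hb h3.1 h1.2 h2.1 (not_lt.1 n3) (not_lt.1 n2) (by linarith)
  by_cases n3 : dt p q < 0
  · by_cases n2 : dt r p < 0
    · exact two_neg hq hr hp (by linarith) n2 n3
    exact one_neg hc hO hb hc' ha h2.1 h3.2 h1.1 (not_lt.1 n2) (not_lt.1 n1) (by linarith)
  exact one_neg hc hO ha hb hc' h1.1 h2.2 h3.1 (not_lt.1 n1) (not_lt.1 n3) hn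

theorem orient {F : Set ℂ} (hc : Convex ℝ F) (hi : (interior F).Nonempty) {γ : ℝ → ℂ}
    (cont : Continuous γ) (hp : ∀ t, γ (t + 1) = γ t)
    (inj : ∀ s t, s < t → t < s + 1 → γ t ≠ γ s) (hF : ∀ t, γ t ∈ F \ interior F) :
    OR γ ∨ OR (fun t => (starRingEnd ℂ) (γ t)) := by
  obtain ⟨O, hO⟩ := hi
  have h0 : ∀ t, 0 < ‖γ t - O‖ := fun t =>
    norm_pos_iff.2 (sub_ne_zero.2 fun e => (hF t).2 (e ▸ hO))
  let ρ : ℝ → ℂ := fun t => (γ t - O) / (‖γ t - O‖ : ℝ)
  have hρ : ∀ t, ‖ρ t‖ = 1 := fun t => by simp [ρ, (h0 t).ne']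
  have hγ : ∀ t, γ t = O + (‖γ t - O‖ : ℝ) * ρ t := fun t => by
    have : ((‖γ t - O‖ : ℝ) : ℂ) ≠ 0 := by exact_mod_cast (h0 t).ne'
    simp only [ρ]; field_simp; ring
  have cρ : Continuous ρ := (cont.sub continuous_const).div (by fun_prop)
    fun t => by exact_mod_cast (h0 t).ne'
  have lt : ∀ s t, ρ s = ρ t → ¬ ‖γ s - O‖ < ‖γ t - O‖ := fun s t e l => by
    have hb : 0 ≤ ‖γ s - O‖ / ‖γ t - O‖ := div_nonneg (h0 s).le (h0 t).le
    have := hc.combo_interior_self_mem_interior hO (hF t).1 (a := 1 - ‖γ s - O‖ / ‖γ t - O‖)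
      (sub_pos.2 ((div_lt_one (h0 t)).2 l)) hb (by ring)
    apply (hF s).2
    convert this using 1
    have e1 := hγ s
    have e2 := hγ t
    have : ((‖γ t - O‖ : ℝ) : ℂ) ≠ 0 := by exact_mod_cast (h0 t).ne'
    simp only [real_smul, ofReal_sub, ofReal_div, ofReal_one]
    field_simp
    rw [e] at e1
    linear_combination (‖γ t - O‖ : ℂ) * e1 - (‖γ s - O‖ : ℂ) * e2
  have iρ : ∀ s t, s < t → t < s + 1 → ρ t ≠ ρ s := fun s t h1 h2 e => by
    apply inj s t h1 h2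
    rw [hγ t, hγ s, e, le_antisymm (not_lt.1 (lt s t e.symm)) (not_lt.1 (lt t s e))]
  let K : Set (ℝ × ℝ × ℝ) := {x | x.1 < x.2.1 ∧ x.2.1 < x.2.2 ∧ x.2.2 < x.1 + 1}
  have hK : IsPreconnected K := by
    refine Convex.isPreconnected ?_
    rintro x ⟨a1, a2, a3⟩ y ⟨b1, b2, b3⟩ u v hu hv huv
    obtain rfl : u = 1 - v := by linarith
    simp only [K, mem_ofPred_eq, Prod.fst_add, Prod.snd_add, Prod.smul_fst, Prod.smul_snd,
      smul_eq_mul]
    rcases hv.eq_or_lt with rfl | hv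
    · simp [*]
    refine ⟨?_, ?_, ?_⟩ <;> nlinarith
  let f : ℝ × ℝ × ℝ → ℝ := fun x => orr (ρ x.1) (ρ x.2.1) (ρ x.2.2)
  have cf : Continuous f := by simp only [f, orr]; fun_prop
  have nf : ∀ x ∈ K, f x ≠ 0 := fun x ⟨a1, a2, a3⟩ => circ (hρ _) (hρ _) (hρ _)
    (iρ _ _ a1 (by linarith)) (iρ _ _ (by linarith) a3) (iρ _ _ a2 (by linarith))
  have ext : ∀ δ : ℝ → ℂ, (∀ t, δ (t + 1) = δ t) →
      (∀ s t u, s < t → t < u → u < s + 1 → 0 ≤ orr (δ s) (δ t) (δ u)) → OR δ := by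
    intro δ h1 h2 s t u a1 a2 a3
    rcases a1.eq_or_lt with rfl | a1
    · simp [orr]
    rcases a2.eq_or_lt with rfl | a2
    · simp only [orr]; linarith
    rcases a3.eq_or_lt with rfl | a3
    · simp [orr, h1]
    exact h2 s t u a1 a2 a3
  by_cases hpos : ∀ x ∈ K, 0 < f x
  · refine Or.inl (ext γ hp fun s t u a1 a2 a3 => ?_)
    rw [hγ s, hγ t, hγ u]
    exact tri hc hO (hρ _) (hρ _) (hρ _) (h0 _) (h0 _) (h0 _) (hγ s ▸ hF s) (hγ t ▸ hF t)
      (hγ u ▸ hF u) (hpos (s, t, u) ⟨a1, a2, a3⟩)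
  · push Not at hpos
    obtain ⟨y, hy, hy0⟩ := hpos
    refine Or.inr (ext _ (fun t => by simp only [hp]) fun s t u a1 a2 a3 => ?_)
    have hneg : f (s, t, u) < 0 := by
      by_contra hn
      obtain ⟨x, hx, hx0⟩ := hK.intermediate_value hy (show (s, t, u) ∈ K from ⟨a1, a2, a3⟩)
        cf.continuousOn ⟨hy0, not_lt.1 hn⟩
      exact nf x hx hx0
    have := tri hc hO (hρ s) (hρ u) (hρ t) (h0 _) (h0 _) (h0 _) (hγ s ▸ hF s) (hγ u ▸ hF u)
      (hγ t ▸ hF t) (by simp only [f, orr] at hneg ⊢; linarith)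
    rw [← hγ s, ← hγ t, ← hγ u] at this
    simp only [orr, conj_re, conj_im] at this ⊢
    linarith

end Pool.Agent.H.MP_0815b2_gt
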